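import Pool.Agent.Helper57.SI.Stmts

set_option autoImplicit false

/-! # The integral of a product of trigonometric polynomials over an interval -/

namespace Pool.Agent.Helper67.SI

open MeasureTheory Set Filter Topology
open Pool.Agent.Helper57.QZ (Pr tor circ aa Zy Wy Sy Vy Ky Fy pt lin)
open Pool.Agent.Helper57.SI

/-- an oscillating integral -/
theorem int_exp_le (l b u H : ℝ) (hl : l ≠ 0) :
    ‖∫ t in u..(u + H), Complex.exp (((t * l + b : ℝ) : ℂ) * Complex.I)‖ ≤ 2 / |l| := by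
  have hc : (l : ℂ) * Complex.I ≠ 0 := mul_ne_zero (by exact_mod_cast hl) Complex.I_ne_zero
  have e : ∀ t : ℝ, Complex.exp (((t * l + b : ℝ) : ℂ) * Complex.I) =
      Complex.exp ((b : ℂ) * Complex.I) * Complex.exp ((l : ℂ) * Complex.I * (t : ℂ)) := by
    intro t
    rw [← Complex.exp_add]
    congr 1
    push_cast
    ring
  simp_rw [e]
  rw [intervalIntegral.integral_const_mul, integral_exp_mul_complex hc, norm_mul,
    Complex.norm_exp_ofReal_mul_I, one_mul, norm_div, norm_mul, Complex.norm_I, mul_one,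
    Complex.norm_real, Real.norm_eq_abs]
  refine div_le_div_of_nonneg_right ?_ (abs_nonneg _)
  have n : ∀ x : ℝ, ‖Complex.exp ((l : ℂ) * Complex.I * (x : ℂ))‖ = 1 := by
    intro x
    have : (l : ℂ) * Complex.I * (x : ℂ) = ((l * x : ℝ) : ℂ) * Complex.I := by push_cast; ring
    rw [this, Complex.norm_exp_ofReal_mul_I]
  calc _ ≤ ‖Complex.exp ((l : ℂ) * Complex.I * ((u + H : ℝ) : ℂ))‖ +
        ‖Complex.exp ((l : ℂ) * Complex.I * (u : ℂ))‖ := norm_sub_le _ _
    _ = 2 := by rw [n, n]; norm_num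

theorem st_OSC (h : ST_FR) : ST_OSC := by
  classical
  intro z K c α u H hH
  obtain ⟨J, hJ⟩ : ∃ J : Finset ℤ, J = Finset.Icc (-(K : ℤ)) (K : ℤ) := ⟨_, rfl⟩
  rw [← hJ]
  have h0J : (0 : ℤ) ∈ J := by rw [hJ]; simp
  obtain ⟨F, hF⟩ : ∃ F : Finset (Pr z → ℤ), F = Fintype.piFinset fun _ : Pr z => J := ⟨_, rfl⟩
  have h0F : (0 : Pr z → ℤ) ∈ F := by
    rw [hF, Fintype.mem_piFinset]
    exact fun _ => h0J
  obtain ⟨lam, hlam⟩ : ∃ lam : (Pr z → ℤ) → ℝ,
    ∀ k, lam k = ∑ p : Pr z, (k p : ℝ) * Real.log ((p : ℕ) : ℝ) := ⟨_, fun _ => rfl⟩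
  obtain ⟨bet, hbet⟩ : ∃ bet : (Pr z → ℤ) → ℝ,
    ∀ k, bet k = ∑ p : Pr z, (k p : ℝ) * α := ⟨_, fun _ => rfl⟩
  have hexp : ∀ t : ℝ, (∏ p : Pr z, ∑ k ∈ J, (c p k : ℂ) *
      Complex.exp ((((k : ℝ) * (t * Real.log ((p : ℕ) : ℝ) + α) : ℝ) : ℂ) * Complex.I)) =
      ∑ k ∈ F, ((∏ p : Pr z, c p (k p) : ℝ) : ℂ) *
        Complex.exp (((t * lam k + bet k : ℝ) : ℂ) * Complex.I) := by
    intro t
    rw [Finset.prod_univ_sum, ← hF]
    refine Finset.sum_congr rfl fun k _ => ?_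
    rw [Finset.prod_mul_distrib, ← Complex.exp_sum, Complex.ofReal_prod]
    congr 2
    rw [← Finset.sum_mul, ← Complex.ofReal_sum]
    congr 2
    rw [hlam, hbet, Finset.mul_sum, ← Finset.sum_add_distrib]
    exact Finset.sum_congr rfl fun p _ => by ring
  simp_rw [hexp]
  have hint : ∀ k ∈ F, IntervalIntegrable (fun t : ℝ => ((∏ p : Pr z, c p (k p) : ℝ) : ℂ) *
      Complex.exp (((t * lam k + bet k : ℝ) : ℂ) * Complex.I)) volume u (u + H) := by
    intro k _
    refine Continuous.intervalIntegrable ?_ _ _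
    fun_prop
  rw [intervalIntegral.integral_finsetSum hint, ← Finset.add_sum_erase F _ h0F]
  have hz : (∫ t in u..(u + H), ((∏ p : Pr z, c p ((0 : Pr z → ℤ) p) : ℝ) : ℂ) *
      Complex.exp (((t * lam 0 + bet 0 : ℝ) : ℂ) * Complex.I)) =
      ((H * ∏ p : Pr z, c p 0 : ℝ) : ℂ) := by
    have e1 : lam 0 = 0 := by rw [hlam]; simp
    have e2 : bet 0 = 0 := by rw [hbet]; simp
    simp only [e1, e2, mul_zero, add_zero, Complex.ofReal_zero, zero_mul, Complex.exp_zero,
      mul_one, intervalIntegral.integral_const, add_sub_cancel_left, Pi.zero_apply]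
    rw [Complex.real_smul]
    push_cast
    ring
  rw [hz, add_sub_cancel_left]
  refine (norm_sum_le _ _).trans ?_
  have hb : ∀ k ∈ F.erase 0, ‖∫ t in u..(u + H), ((∏ p : Pr z, c p (k p) : ℝ) : ℂ) *
      Complex.exp (((t * lam k + bet k : ℝ) : ℂ) * Complex.I)‖ ≤
      2 * 4 ^ (K * z) * ∏ p : Pr z, |c p (k p)| := by
    intro k hk
    have hk0 := Finset.ne_of_mem_erase hk
    have hkF := Finset.mem_of_mem_erase hk
    have hkb : ∀ p, |k p| ≤ (K : ℤ) := by
      intro p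
      rw [hF, Fintype.mem_piFinset] at hkF
      have := hkF p
      rw [hJ, Finset.mem_Icc] at this
      exact abs_le.2 this
    have h4 : (0 : ℝ) < 4 ^ (K * z) := by positivity
    have h1 := h z K k hkb hk0
    rw [← hlam] at h1
    have h2 : 0 < |lam k| := lt_of_lt_of_le (by positivity) h1
    have h3 : lam k ≠ 0 := abs_pos.1 h2
    rw [intervalIntegral.integral_const_mul, norm_mul, Complex.norm_real, Real.norm_eq_abs,
      Finset.abs_prod, mul_comm]
    refine mul_le_mul_of_nonneg_right ((int_exp_le _ _ u H h3).trans ?_)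
      (Finset.prod_nonneg fun _ _ => abs_nonneg _)
    rw [div_le_iff₀ h2]
    have h5 : 1 ≤ 4 ^ (K * z) * |lam k| := by
      rw [div_le_iff₀ h4] at h1
      linarith
    nlinarith
  refine (Finset.sum_le_sum hb).trans ?_
  rw [← Finset.mul_sum, Finset.prod_univ_sum, ← hF]
  refine mul_le_mul_of_nonneg_left ?_ (by positivity)
  exact Finset.sum_le_sum_of_subset_of_nonneg (Finset.erase_subset _ _)
    fun k _ _ => Finset.prod_nonneg fun _ _ => abs_nonneg _

end Pool.Agent.Helper67.SI
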